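import Mathlib
import Pool.Agent.N979.MH.Stm

/-!
Project MH: `∫ ∂_i v_j ∂_j φ_i = 0` for divergence free fields.
-/

set_option linter.unusedSectionVars false

open MeasureTheory Set Filter Topology
open scoped InnerProductSpace ENNReal ContDiff NNReal

namespace N979MH

open H772R2.NS

theorem fderiv_fderiv_comm {b : E3 → ℝ} (hb : ContDiff ℝ ∞ b) (v w : E3) (x : E3) :
    fderiv ℝ (fun y => fderiv ℝ b y w) x v = fderiv ℝ (fun y => fderiv ℝ b y v) x w := by
  have h1 : ∀ w : E3, fderiv ℝ (fun y => fderiv ℝ b y w) x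
      = (fderiv ℝ (fderiv ℝ b) x).flip w := by
    intro w
    have h2 : DifferentiableAt ℝ (fderiv ℝ b) x :=
      ((hb.fderiv_right (m := ∞) (by simp)).differentiable (by simp)) x
    ext z
    rw [fderiv_clm_apply h2 (differentiableAt_const w)]
    simp
  rw [h1, h1, ContinuousLinearMap.flip_apply, ContinuousLinearMap.flip_apply]
  have h2 : minSmoothness ℝ 2 ≤ ((⊤ : ℕ∞) : WithTop ℕ∞) := by
    rw [minSmoothness_of_isRCLikeNormedField]
    exact WithTop.coe_le_coe.mpr le_top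
  exact (hb.contDiffAt.isSymmSndFDerivAt h2) _ _

theorem int_cross {a b : E3 → ℝ} (ha : ContDiff ℝ ∞ a) (hb : ContDiff ℝ ∞ b)
    (hca : HasCompactSupport a) (v w : E3) :
    ∫ x, fderiv ℝ a x v * fderiv ℝ b x w = ∫ x, fderiv ℝ a x w * fderiv ℝ b x v := by
  have hd : ∀ {c : E3 → ℝ}, ContDiff ℝ ∞ c → ∀ v, ContDiff ℝ ∞ (fun x => fderiv ℝ c x v) :=
    fun hc v => (hc.fderiv_right (m := ∞) (by simp)).clm_apply contDiff_const
  have hdc : ∀ {c : E3 → ℝ}, HasCompactSupport c → ∀ v, HasCompactSupport (fun x => fderiv ℝ c x v) :=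
    fun hc v => hc.fderiv_apply (𝕜 := ℝ) v
  have key : ∀ v w : E3, ∫ x, fderiv ℝ b x w * fderiv ℝ a x v
      = - ∫ x, fderiv ℝ (fun y => fderiv ℝ b y w) x v * a x := by
    intro v w
    apply integral_mul_fderiv_eq_neg_fderiv_mul_of_integrable
    · exact ((hd (hd hb w) v).continuous.mul ha.continuous).integrable_of_hasCompactSupport
        hca.mul_left
    · exact ((hd hb w).continuous.mul (hd ha v).continuous).integrable_of_hasCompactSupport
        (hdc hca v).mul_left
    · exact ((hd hb w).continuous.mul ha.continuous).integrable_of_hasCompactSupport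
        hca.mul_left
    · exact fun x _ => ((hd hb w).differentiable (by simp)) x
    · exact fun x _ => (ha.differentiable (by simp)) x
  have e1 : ∫ x, fderiv ℝ a x v * fderiv ℝ b x w = ∫ x, fderiv ℝ b x w * fderiv ℝ a x v := by
    congr 1; funext x; ring
  have e2 : ∫ x, fderiv ℝ a x w * fderiv ℝ b x v = ∫ x, fderiv ℝ b x v * fderiv ℝ a x w := by
    congr 1; funext x; ring
  rw [e1, e2, key, key]
  congr 2
  funext x
  rw [fderiv_fderiv_comm hb]

theorem IsTest.cross_zero {Ω : Set E3} {v φ : E3 → E3} (hv : IsTest Ω v) (hφ : IsTest Ω φ) :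
    ∫ x, ∑ i, ∑ j, jac v x (j, i) * jac φ x (i, j) = 0 := by
  have hc : ∀ {q : E3 → E3}, IsTest Ω q → ∀ i j : Fin 3,
      Continuous (fun x => jac q x (i, j)) := by
    intro q hq i j
    exact (EuclideanSpace.proj (𝕜 := ℝ) (i, j) : M3 →L[ℝ] ℝ).continuous.comp
      (continuous_jac hq.smooth)
  have hcs : ∀ {q : E3 → E3}, IsTest Ω q → ∀ i j : Fin 3,
      HasCompactSupport (fun x => jac q x (i, j)) := by
    intro q hq i j
    refine (hasCompactSupport_jac hq.compact).mono (fun x hx => ?_)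
    intro h0
    apply hx
    simp [h0]
  have hint : ∀ i j k l : Fin 3, Integrable (fun x => jac v x (i, j) * jac φ x (k, l)) :=
    fun i j k l => ((hc hv i j).mul (hc hφ k l)).integrable_of_hasCompactSupport
      (hcs hφ k l).mul_left
  rw [integral_finsetSum _ (fun i _ => integrable_finsetSum _ (fun j _ => hint j i i j))]
  have e1 : ∀ i j : Fin 3, ∫ x, jac v x (j, i) * jac φ x (i, j)
      = ∫ x, jac v x (j, j) * jac φ x (i, i) := by
    intro i j
    have h1 := int_cross (contDiff_coord hv.smooth j) (contDiff_coord hφ.smooth i)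
      (hasCompactSupport_coord hv.compact j) (ev i) (ev j)
    simp only [fderiv_coord hv.smooth, fderiv_coord hφ.smooth] at h1
    simp only [jac_apply]
    exact h1
  have e2 : ∀ i : Fin 3, ∫ x, ∑ j, jac v x (j, i) * jac φ x (i, j)
      = ∫ x, ∑ j, jac v x (j, j) * jac φ x (i, i) := by
    intro i
    rw [integral_finsetSum _ (fun j _ => hint j i i j), integral_finsetSum _ (fun j _ => hint j j i i)]
    exact Finset.sum_congr rfl (fun j _ => e1 i j)
  refine Finset.sum_eq_zero (fun i _ => ?_)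
  rw [e2]
  have : ∀ x, ∑ j, jac v x (j, j) * jac φ x (i, i) = 0 := by
    intro x
    rw [← Finset.sum_mul, hv.divfree, zero_mul]
  simp [this]

theorem norm_jac_le {φ : E3 → E3} (x : E3) : ‖jac φ x‖ ≤ 3 * ‖fderiv ℝ φ x‖ := by
  have h1 : ∀ i j : Fin 3, jac φ x (i, j) ^ 2 ≤ ‖fderiv ℝ φ x‖ ^ 2 := by
    intro i j
    rw [← sq_abs (jac φ x (i, j))]
    have h2 : |jac φ x (i, j)| ≤ ‖fderiv ℝ φ x‖ := by
      rw [jac_apply]
      have h3 : |fderiv ℝ φ x (ev j) i| ≤ ‖fderiv ℝ φ x (ev j)‖ := by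
        have := PiLp.norm_apply_le (fderiv ℝ φ x (ev j)) i
        simpa using this
      refine h3.trans (((fderiv ℝ φ x).le_opNorm _).trans ?_)
      have h4 : ‖ev j‖ = 1 := by simp [ev]
      rw [h4, mul_one]
    gcongr
  have h2 : ‖jac φ x‖ ^ 2 ≤ (3 * ‖fderiv ℝ φ x‖) ^ 2 := by
    rw [norm_sq_M3]
    calc ∑ i, ∑ j, jac φ x (i, j) ^ 2 ≤ ∑ i : Fin 3, ∑ j : Fin 3, ‖fderiv ℝ φ x‖ ^ 2 :=
          Finset.sum_le_sum (fun i _ => Finset.sum_le_sum (fun j _ => h1 i j))
      _ = (3 * ‖fderiv ℝ φ x‖) ^ 2 := by simp; ring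
  exact (pow_le_pow_iff_left₀ (norm_nonneg _) (by positivity) (by norm_num)).mp h2

/-- `∫_Ω ∑ G_ji ∂_j φ_i = 0` for `G = ∇u`, `u ∈ H¹_{0,σ}(Ω)`. -/
theorem cross_zero {Ω : Set E3} {φ : E3 → E3} (hφ : IsTest Ω φ)
    {p : L2V Ω × L2M Ω} (hp : p ∈ graphW Ω) :
    ∫ x in Ω, ∑ i, ∑ j, p.2 x (j, i) * jac φ x (i, j) = 0 := by
  let J : E3 → M3 := fun x => WithLp.toLp 2 fun q => jac φ x (q.2, q.1)
  have hJc : Continuous J := by
    refine (PiLp.continuous_toLp 2 _).comp (continuous_pi (fun q => ?_))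
    exact (EuclideanSpace.proj (𝕜 := ℝ) (q.2, q.1) : M3 →L[ℝ] ℝ).continuous.comp
      (continuous_jac hφ.smooth)
  have hJs : HasCompactSupport J := by
    refine (hasCompactSupport_jac hφ.compact).mono (fun x hx => ?_)
    intro h0
    apply hx
    ext q
    simp [J, h0]
  have hJm : MemLp J 2 (volume.restrict Ω) :=
    (hJc.memLp_of_hasCompactSupport hJs).restrict Ω
  have hval : ∀ z : L2M Ω, ⟪z, hJm.toLp J⟫_ℝ = ∫ x in Ω, ∑ i, ∑ j, z x (j, i) * jac φ x (i, j) := by
    intro z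
    rw [L2.inner_def]
    apply integral_congr_ae
    filter_upwards [hJm.coeFn_toLp] with x hx
    rw [hx, inner_M3, Finset.sum_comm]
  have h := graphW_induction (fun p => ⟪p.2, hJm.toLp J⟫_ℝ)
    (continuous_snd.inner continuous_const).continuousOn ?_ hp
  · rw [← hval]
    exact h
  · rintro q ⟨v, h1, h2, h3⟩
    show ⟪q.2, hJm.toLp J⟫_ℝ = 0
    rw [hval]
    have e1 : ∫ x in Ω, ∑ i, ∑ j, q.2 x (j, i) * jac φ x (i, j)
        = ∫ x in Ω, ∑ i, ∑ j, jac v x (j, i) * jac φ x (i, j) := by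
      apply integral_congr_ae
      filter_upwards [h3] with x hx
      rw [hx]
    rw [e1, setIntegral_eq_integral_of_forall_compl_eq_zero]
    · exact IsTest.cross_zero h1 hφ
    · intro x hx
      have : jac φ x = 0 := by
        apply image_eq_zero_of_notMem_tsupport
        intro hc
        exact hx (hφ.supp (tsupport_jac_subset hc))
      simp [this]

end N979MH
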