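import Mathlib
import Pool.Agent.N979.MH.Stm

/-!
Project MH: measurability in time of integrals with densities.
-/

open MeasureTheory Set Filter Topology
open scoped InnerProductSpace ENNReal ContDiff NNReal

set_option linter.unusedSectionVars false

namespace N979MH

open H772R2.NS

section pettis

variable {H : Type*} [NormedAddCommGroup H] [InnerProductSpace ℝ H] [SecondCountableTopology H]

/-- weakly measurable functions with values in a separable space are strongly measurable. -/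
theorem stronglyMeasurable_of_inner {α : Type*} [MeasurableSpace α] {u : α → H}
    (h : ∀ v, Measurable fun a => ⟪u a, v⟫_ℝ) : StronglyMeasurable u := by
  borelize H
  let d : ℕ → H := TopologicalSpace.denseSeq H
  have hd : DenseRange d := TopologicalSpace.denseRange_denseSeq H
  have hn : ∀ (x : H) (r : ℝ), ‖x‖ ≤ r ↔ 0 ≤ r ∧ ∀ n, ⟪x, d n⟫_ℝ ≤ r * ‖d n‖ := by
    intro x r
    constructor
    · intro hx
      refine ⟨(norm_nonneg x).trans hx, fun n => ?_⟩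
      calc ⟪x, d n⟫_ℝ ≤ ‖x‖ * ‖d n‖ := real_inner_le_norm _ _
        _ ≤ r * ‖d n‖ := by gcongr
    · rintro ⟨hr, hx⟩
      have h1 : ∀ y, ⟪x, y⟫_ℝ ≤ r * ‖y‖ := by
        intro y
        refine hd.induction_on (p := fun y => ⟪x, y⟫_ℝ ≤ r * ‖y‖) y ?_ hx
        exact isClosed_le (continuous_const.inner continuous_id)
          (continuous_const.mul continuous_norm)
      have h2 := h1 x
      rw [real_inner_self_eq_norm_mul_norm] at h2
      rcases eq_or_lt_of_le (norm_nonneg x) with h3 | h3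
      · rw [← h3]; exact hr
      · exact le_of_mul_le_mul_right h2 h3
  have hm : ∀ (v : H) (r : ℝ), MeasurableSet {a | ‖u a - v‖ ≤ r} := by
    intro v r
    have : {a | ‖u a - v‖ ≤ r} = {a | 0 ≤ r} ∩ ⋂ n, {a | ⟪u a, d n⟫_ℝ - ⟪v, d n⟫_ℝ ≤ r * ‖d n‖} := by
      ext a
      simp only [mem_ofPred_eq, mem_inter_iff, mem_iInter]
      rw [hn]
      simp only [inner_sub_left]
    rw [this]
    refine (MeasurableSet.const _).inter (MeasurableSet.iInter (fun n => ?_))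
    exact measurableSet_le ((h _).sub_const _) measurable_const
  have hu : Measurable u := by
    refine measurable_of_isOpen (fun U hU => ?_)
    have : u ⁻¹' U = ⋃ n, ⋃ q : ℚ, ⋃ (_ : Metric.closedBall (d n) q ⊆ U),
        {a | ‖u a - d n‖ ≤ q} := by
      ext a
      simp only [mem_preimage, mem_iUnion, mem_ofPred_eq, exists_prop]
      constructor
      · intro ha
        obtain ⟨ε, hε, hb⟩ := Metric.isOpen_iff.mp hU _ ha
        obtain ⟨n, hn1⟩ := hd.exists_dist_lt (u a) (show 0 < ε / 3 by positivity)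
        obtain ⟨q, hq1, hq2⟩ := exists_rat_btwn (show ε / 3 < ε / 2 by linarith)
        refine ⟨n, q, ?_, ?_⟩
        · intro y hy
          apply hb
          rw [Metric.mem_closedBall] at hy
          rw [Metric.mem_ball]
          calc dist y (u a) ≤ dist y (d n) + dist (d n) (u a) := dist_triangle _ _ _
            _ < ε := by rw [dist_comm (d n)]; linarith
        · rw [← dist_eq_norm]; linarith
      · rintro ⟨n, q, h1, h2⟩
        apply h1
        rw [Metric.mem_closedBall, dist_eq_norm]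
        exact h2
    rw [this]
    exact MeasurableSet.iUnion (fun n => MeasurableSet.iUnion (fun q => MeasurableSet.iUnion
      (fun _ => hm _ _)))
  exact hu.stronglyMeasurable

end pettis

section clip

/-- truncation of time to `[0,T]`. -/
noncomputable def clp (T t : ℝ) : ℝ := max 0 (min t T)

theorem clp_mem {T : ℝ} (hT : 0 ≤ T) (t : ℝ) : clp T t ∈ Icc 0 T :=
  ⟨le_max_left _ _, max_le hT (min_le_right _ _)⟩

theorem clp_of_mem {T t : ℝ} (ht : t ∈ Icc 0 T) : clp T t = t := by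
  rw [clp, min_eq_left ht.2, max_eq_right ht.1]

theorem clp_continuous (T : ℝ) : Continuous (clp T) :=
  continuous_const.max (continuous_id.min continuous_const)

theorem clp_comp {Y : Type*} [TopologicalSpace Y] {T : ℝ} (hT : 0 ≤ T) {g : ℝ → Y}
    (hg : ContinuousOn g (Icc 0 T)) : Continuous (fun t => g (clp T t)) :=
  hg.comp_continuous (clp_continuous T) (clp_mem hT)

theorem aesm_of_weak {H : Type*} [NormedAddCommGroup H] [InnerProductSpace ℝ H]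
    [SecondCountableTopology H] {T : ℝ} (hT : 0 ≤ T) {u : ℝ → H}
    (hu : ∀ v, ContinuousOn (fun t => ⟪u t, v⟫_ℝ) (Icc 0 T)) :
    AEStronglyMeasurable u (volume.restrict (Ioc 0 T)) := by
  have h1 : StronglyMeasurable (fun t => u (clp T t)) :=
    stronglyMeasurable_of_inner (fun v => (clp_comp hT (hu v)).measurable)
  refine ⟨_, h1, ?_⟩
  rw [EventuallyEq, ae_restrict_iff' measurableSet_Ioc]
  refine Eventually.of_forall (fun t ht => ?_)
  rw [clp_of_mem (Ioc_subset_Icc_self ht)]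

end clip

section pair

variable {Ω : Set E3}

theorem bdd_of {ρ : L2S Ω} (hb : ∀ᵐ x ∂(volume.restrict Ω), 1 ≤ ρ x ∧ ρ x ≤ 2) :
    ∀ᵐ x ∂(volume.restrict Ω), ‖ρ x‖ ≤ 2 := by
  filter_upwards [hb] with x hx
  rw [Real.norm_eq_abs, abs_le]
  constructor <;> linarith [hx.1, hx.2]

theorem integrable_rho_mul {ρ : L2S Ω} (hb : ∀ᵐ x ∂(volume.restrict Ω), 1 ≤ ρ x ∧ ρ x ≤ 2)
    {g : E3 → ℝ} (hg : Integrable g (volume.restrict Ω)) :
    Integrable (fun x => ρ x * g x) (volume.restrict Ω) :=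
  Integrable.bdd_mul hg (Lp.aestronglyMeasurable ρ) (bdd_of hb)

theorem norm_integral_rho_mul_le {ρ : L2S Ω}
    (hb : ∀ᵐ x ∂(volume.restrict Ω), 1 ≤ ρ x ∧ ρ x ≤ 2) {g : E3 → ℝ}
    (hg : Integrable g (volume.restrict Ω)) :
    ‖∫ x in Ω, ρ x * g x‖ ≤ 2 * ∫ x in Ω, ‖g x‖ := by
  rw [← integral_const_mul]
  refine norm_integral_le_of_norm_le (hg.norm.const_mul 2) ?_
  filter_upwards [bdd_of hb] with x hx
  rw [norm_mul]
  gcongr

theorem weakstar {ρ : ℝ → L2S Ω} (hρ : Continuous ρ)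
    (hb : ∀ t, ∀ᵐ x ∂(volume.restrict Ω), 1 ≤ ρ t x ∧ ρ t x ≤ 2) {g : E3 → ℝ}
    (hg : Integrable g (volume.restrict Ω)) : Continuous (fun t => ∫ x in Ω, ρ t x * g x) := by
  refine Integrable.induction (P := fun g => Continuous (fun t => ∫ x in Ω, ρ t x * g x))
    ?_ ?_ ?_ ?_ hg
  · intro c s hs hμ
    have hm : MemLp (s.indicator fun _ => c) 2 (volume.restrict Ω) :=
      memLp_indicator_const 2 hs c (Or.inr hμ.ne)
    have : (fun t => ∫ x in Ω, ρ t x * s.indicator (fun _ => c) x)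
        = fun t => ⟪hm.toLp _, ρ t⟫_ℝ := by
      funext t
      rw [L2.inner_def]
      apply integral_congr_ae
      filter_upwards [hm.coeFn_toLp] with x hx
      rw [hx]
      simp
    rw [this]
    exact continuous_const.inner hρ
  · intro f g _ hf hg hPf hPg
    have : (fun t => ∫ x in Ω, ρ t x * (f + g) x)
        = fun t => (∫ x in Ω, ρ t x * f x) + ∫ x in Ω, ρ t x * g x := by
      funext t
      rw [← integral_add (integrable_rho_mul (hb t) hf) (integrable_rho_mul (hb t) hg)]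
      simp [mul_add]
    rw [this]
    exact hPf.add hPg
  · rw [← isSeqClosed_iff_isClosed]
    intro F f hF hlim
    have hu : TendstoUniformly (fun n t => ∫ x in Ω, ρ t x * F n x)
        (fun t => ∫ x in Ω, ρ t x * f x) atTop := by
      rw [Metric.tendstoUniformly_iff]
      intro ε hε
      have h1 : Tendsto (fun n => 2 * ‖F n - f‖) atTop (𝓝 (2 * 0)) :=
        (tendsto_iff_norm_sub_tendsto_zero.mp hlim).const_mul 2
      rw [mul_zero] at h1
      filter_upwards [h1.eventually (gt_mem_nhds hε)] with n hn t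
      rw [dist_eq_norm, ← integral_sub (integrable_rho_mul (hb t) (L1.integrable_coeFn f))
        (integrable_rho_mul (hb t) (L1.integrable_coeFn (F n)))]
      refine lt_of_le_of_lt ?_ hn
      have h2 : (∫ x in Ω, (ρ t x * f x - ρ t x * F n x))
          = ∫ x in Ω, ρ t x * (f - F n : Lp ℝ 1 (volume.restrict Ω)) x := by
        apply integral_congr_ae
        filter_upwards [Lp.coeFn_sub f (F n)] with x hx
        rw [hx, Pi.sub_apply, mul_sub]
      rw [h2]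
      refine (norm_integral_rho_mul_le (hb t) (L1.integrable_coeFn _)).trans ?_
      rw [norm_sub_rev, L1.norm_eq_integral_norm]
    exact hu.continuous (Frequently.of_forall hF)
  · intro f g hfg _ hPf
    have : (fun t => ∫ x in Ω, ρ t x * g x) = fun t => ∫ x in Ω, ρ t x * f x := by
      funext t
      apply integral_congr_ae
      filter_upwards [hfg] with x hx
      rw [hx]
    rw [this]
    exact hPf

theorem pair_continuous {ρ : ℝ → L2S Ω} (hρ : Continuous ρ)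
    (hb : ∀ t, ∀ᵐ x ∂(volume.restrict Ω), 1 ≤ ρ t x ∧ ρ t x ≤ 2)
    {X : Type*} [TopologicalSpace X] {g : X → E3 → ℝ}
    (hgi : ∀ a, Integrable (g a) (volume.restrict Ω))
    (hgc : ∀ a, Tendsto (fun b => ∫ x in Ω, ‖g b x - g a x‖) (𝓝 a) (𝓝 0)) :
    Continuous (fun p : ℝ × X => ∫ x in Ω, ρ p.1 x * g p.2 x) := by
  rw [continuous_iff_continuousAt]
  rintro ⟨t0, a⟩
  rw [ContinuousAt, tendsto_iff_norm_sub_tendsto_zero]
  have h1 : Tendsto (fun p : ℝ × X => ‖(∫ x in Ω, ρ p.1 x * g a x) - ∫ x in Ω, ρ t0 x * g a x‖)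
      (𝓝 (t0, a)) (𝓝 0) := by
    have h2 := ((weakstar hρ hb (hgi a)).comp continuous_fst).tendsto ((t0, a) : ℝ × X)
    exact tendsto_iff_norm_sub_tendsto_zero.mp h2
  have h2 : Tendsto (fun p : ℝ × X => 2 * ∫ x in Ω, ‖g p.2 x - g a x‖) (𝓝 (t0, a)) (𝓝 (2 * 0)) :=
    ((hgc a).comp (continuous_snd.tendsto ((t0, a) : ℝ × X))).const_mul 2
  have h3 := h2.add h1
  rw [mul_zero, add_zero] at h3
  refine squeeze_zero (fun _ => norm_nonneg _) (fun p => ?_) h3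
  have h4 := norm_integral_rho_mul_le (hb p.1) ((hgi p.2).sub (hgi a))
  have h5 : (∫ x in Ω, ρ p.1 x * (g p.2 - g a) x)
      = (∫ x in Ω, ρ p.1 x * g p.2 x) - ∫ x in Ω, ρ p.1 x * g a x := by
    rw [← integral_sub (integrable_rho_mul (hb p.1) (hgi p.2))
      (integrable_rho_mul (hb p.1) (hgi a))]
    simp [mul_sub]
  calc ‖(∫ x in Ω, ρ p.1 x * g p.2 x) - ∫ x in Ω, ρ t0 x * g a x‖
      = ‖((∫ x in Ω, ρ p.1 x * g p.2 x) - ∫ x in Ω, ρ p.1 x * g a x)
        + ((∫ x in Ω, ρ p.1 x * g a x) - ∫ x in Ω, ρ t0 x * g a x)‖ := by ring_nf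
    _ ≤ _ := by
        refine (norm_add_le _ _).trans ?_
        rw [← h5]
        gcongr
        exact h4

end pair

section forms

variable {Ω : Set E3} {E : Type*} [NormedAddCommGroup E] [InnerProductSpace ℝ E]

/-- Cauchy-Schwarz. -/
theorem cs_int {F : Type*} [NormedAddCommGroup F] [InnerProductSpace ℝ F] {μ : Measure E3}
    (v : Lp E 2 μ) (w : Lp F 2 μ) : ∫ x, ‖v x‖ * ‖w x‖ ∂μ ≤ ‖v‖ * ‖w‖ := by
  have hv : MemLp (fun x => ‖v x‖) 2 μ := (Lp.memLp v).norm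
  have hw : MemLp (fun x => ‖w x‖) 2 μ := (Lp.memLp w).norm
  have h1 : ∫ x, ‖v x‖ * ‖w x‖ ∂μ = ⟪hv.toLp _, hw.toLp _⟫_ℝ := by
    rw [L2.inner_def]
    apply integral_congr_ae
    filter_upwards [hv.coeFn_toLp, hw.coeFn_toLp] with x h1 h2
    rw [h1, h2]
    simp [mul_comm]
  have h2 : ‖hv.toLp _‖ = ‖v‖ := by
    rw [Lp.norm_toLp, Lp.norm_def]
    congr 1
    exact eLpNorm_norm _
  have h3 : ‖hw.toLp _‖ = ‖w‖ := by
    rw [Lp.norm_toLp, Lp.norm_def]
    congr 1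
    exact eLpNorm_norm _
  rw [h1, ← h2, ← h3]
  exact real_inner_le_norm _ _

theorem cs_integrable {F : Type*} [NormedAddCommGroup F] [InnerProductSpace ℝ F] {μ : Measure E3}
    (v : Lp E 2 μ) (w : Lp F 2 μ) : Integrable (fun x => ‖v x‖ * ‖w x‖) μ :=
  MemLp.integrable_mul (Lp.memLp v).norm (Lp.memLp w).norm

theorem int_norm_le {μ : Measure E3} [IsFiniteMeasure μ] : ∃ K : ℝ, 0 ≤ K ∧ ∀ v : Lp E 2 μ,
    Integrable (fun x => ‖v x‖) μ ∧ ∫ x, ‖v x‖ ∂μ ≤ K * ‖v‖ := by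
  have h1 : MemLp (fun _ : E3 => (1 : ℝ)) 2 μ := memLp_const 1
  refine ⟨‖h1.toLp _‖, norm_nonneg _, fun v => ⟨?_, ?_⟩⟩
  · exact ((Lp.memLp v).integrable (by norm_num)).norm
  · have h2 := cs_int (h1.toLp _) v
    refine le_trans (le_of_eq ?_) h2
    apply integral_congr_ae
    filter_upwards [h1.coeFn_toLp] with x hx
    rw [hx]
    simp

/-- the linear forms. -/
theorem lin_continuous [CompleteSpace E] [IsFiniteMeasure (volume.restrict Ω)] {ρ : ℝ → L2S Ω}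
    (hρ : Continuous ρ)
    (hb : ∀ t, ∀ᵐ x ∂(volume.restrict Ω), 1 ≤ ρ t x ∧ ρ t x ≤ 2)
    {B : ℝ → E3 → (E →L[ℝ] ℝ)} {C : ℝ} (hC : 0 ≤ C) (hB0 : ∀ r, Continuous (B r))
    (hB1 : ∀ r x, ‖B r x‖ ≤ C) (hB2 : ∀ r s x, ‖B r x - B s x‖ ≤ C * |r - s|) :
    Continuous (fun p : ℝ × (Lp E 2 (volume.restrict Ω) × ℝ) =>
      ∫ x in Ω, ρ p.1 x * B p.2.2 x (p.2.1 x)) := by
  have hmeas : ∀ (v : Lp E 2 (volume.restrict Ω)) (r : ℝ),
      AEStronglyMeasurable (fun x => B r x (v x)) (volume.restrict Ω) := fun v r =>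
    (continuous_fst.clm_apply continuous_snd : Continuous fun q : (E →L[ℝ] ℝ) × E =>
      q.1 q.2).comp_aestronglyMeasurable
      ((hB0 r).aestronglyMeasurable.prodMk (Lp.aestronglyMeasurable v))
  obtain ⟨K, hK, hKv⟩ := int_norm_le (E := E) (μ := volume.restrict Ω)
  have hint : ∀ (v : Lp E 2 (volume.restrict Ω)) (r : ℝ),
      Integrable (fun x => B r x (v x)) (volume.restrict Ω) := by
    intro v r
    refine Integrable.mono' ((hKv v).1.const_mul C) (hmeas v r) ?_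
    refine Eventually.of_forall (fun x => ?_)
    exact (B r x).le_of_opNorm_le (hB1 r x) _
  refine pair_continuous (X := Lp E 2 (volume.restrict Ω) × ℝ)
    (g := fun a x => B a.2 x (a.1 x)) hρ hb (fun a => hint a.1 a.2) ?_
  rintro ⟨v0, r0⟩
  have h1 : Tendsto (fun b : Lp E 2 (volume.restrict Ω) × ℝ =>
      C * (K * ‖b.1 - v0‖) + C * |b.2 - r0| * (K * ‖v0‖)) (𝓝 (v0, r0)) (𝓝 0) := by
    have h2 : Continuous (fun b : Lp E 2 (volume.restrict Ω) × ℝ =>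
        C * (K * ‖b.1 - v0‖) + C * |b.2 - r0| * (K * ‖v0‖)) := by fun_prop
    have h3 := h2.tendsto (v0, r0)
    simpa using h3
  refine squeeze_zero (fun _ => integral_nonneg (fun _ => norm_nonneg _)) (fun b => ?_) h1
  have h2 : ∀ᵐ x ∂(volume.restrict Ω), ‖B b.2 x (b.1 x) - B r0 x (v0 x)‖
      ≤ C * ‖(b.1 - v0 : Lp E 2 (volume.restrict Ω)) x‖ + C * |b.2 - r0| * ‖v0 x‖ := by
    filter_upwards [Lp.coeFn_sub b.1 v0] with x hx
    rw [hx, Pi.sub_apply]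
    calc ‖B b.2 x (b.1 x) - B r0 x (v0 x)‖
        = ‖B b.2 x (b.1 x - v0 x) + (B b.2 x - B r0 x) (v0 x)‖ := by
          rw [map_sub, sub_apply]
          congr 1
          abel
      _ ≤ ‖B b.2 x (b.1 x - v0 x)‖ + ‖(B b.2 x - B r0 x) (v0 x)‖ := norm_add_le _ _
      _ ≤ _ := add_le_add ((B b.2 x).le_of_opNorm_le (hB1 _ _) _)
          ((B b.2 x - B r0 x).le_of_opNorm_le (hB2 _ _ _) _)
  have i1 : Integrable (fun x => C * ‖(b.1 - v0 : Lp E 2 (volume.restrict Ω)) x‖)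
      (volume.restrict Ω) := (hKv _).1.const_mul C
  have i2 : Integrable (fun x => C * |b.2 - r0| * ‖v0 x‖) (volume.restrict Ω) :=
    (hKv _).1.const_mul _
  calc ∫ x in Ω, ‖B b.2 x (b.1 x) - B r0 x (v0 x)‖
      ≤ ∫ x in Ω, (C * ‖(b.1 - v0 : Lp E 2 (volume.restrict Ω)) x‖
        + C * |b.2 - r0| * ‖v0 x‖) :=
        integral_mono_ae ((hint b.1 b.2).sub (hint v0 r0)).norm (i1.add i2) h2
    _ = C * (∫ x in Ω, ‖(b.1 - v0 : Lp E 2 (volume.restrict Ω)) x‖)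
        + C * |b.2 - r0| * ∫ x in Ω, ‖v0 x‖ := by
        rw [integral_add i1 i2, integral_const_mul, integral_const_mul]
    _ ≤ _ := by
        have h3 := (hKv (b.1 - v0)).2
        have h4 := (hKv v0).2
        gcongr

/-- the quadratic forms. -/
theorem quad_continuous {ρ : ℝ → L2S Ω} (hρ : Continuous ρ)
    (hb : ∀ t, ∀ᵐ x ∂(volume.restrict Ω), 1 ≤ ρ t x ∧ ρ t x ≤ 2)
    {A : ℝ → E3 → (E3 →L[ℝ] E3)} {C : ℝ} (hC : 0 ≤ C) (hA0 : ∀ r, Continuous (A r))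
    (hA1 : ∀ r x, ‖A r x‖ ≤ C) (hA2 : ∀ r s x, ‖A r x - A s x‖ ≤ C * |r - s|) :
    Continuous (fun p : ℝ × (L2V Ω × ℝ) =>
      ∫ x in Ω, ρ p.1 x * ⟪p.2.1 x, A p.2.2 x (p.2.1 x)⟫_ℝ) := by
  have hmeas : ∀ (v : L2V Ω) (r : ℝ),
      AEStronglyMeasurable (fun x => ⟪v x, A r x (v x)⟫_ℝ) (volume.restrict Ω) := fun v r =>
    (Lp.aestronglyMeasurable v).inner
      ((continuous_fst.clm_apply continuous_snd : Continuous fun q : (E3 →L[ℝ] E3) × E3 =>
        q.1 q.2).comp_aestronglyMeasurable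
        ((hA0 r).aestronglyMeasurable.prodMk (Lp.aestronglyMeasurable v)))
  have hint : ∀ (v : L2V Ω) (r : ℝ),
      Integrable (fun x => ⟪v x, A r x (v x)⟫_ℝ) (volume.restrict Ω) := by
    intro v r
    refine Integrable.mono' ((cs_integrable v v).const_mul C) (hmeas v r) ?_
    refine Eventually.of_forall (fun x => ?_)
    calc ‖⟪v x, A r x (v x)⟫_ℝ‖ ≤ ‖v x‖ * ‖A r x (v x)‖ := norm_inner_le_norm _ _
      _ ≤ ‖v x‖ * (C * ‖v x‖) := by
          gcongr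
          exact (A r x).le_of_opNorm_le (hA1 r x) _
      _ = C * (‖v x‖ * ‖v x‖) := by ring
  refine pair_continuous (X := L2V Ω × ℝ)
    (g := fun a x => ⟪a.1 x, A a.2 x (a.1 x)⟫_ℝ) hρ hb (fun a => hint a.1 a.2) ?_
  rintro ⟨v0, r0⟩
  have h1 : Tendsto (fun b : L2V Ω × ℝ =>
      C * (‖b.1 - v0‖ * ‖b.1‖) + C * (‖v0‖ * ‖b.1 - v0‖) + C * |b.2 - r0| * (‖v0‖ * ‖v0‖))
      (𝓝 (v0, r0)) (𝓝 0) := by
    have h2 : Continuous (fun b : L2V Ω × ℝ =>
      C * (‖b.1 - v0‖ * ‖b.1‖) + C * (‖v0‖ * ‖b.1 - v0‖) + C * |b.2 - r0| * (‖v0‖ * ‖v0‖)) := by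
      fun_prop
    have h3 := h2.tendsto (v0, r0)
    simpa using h3
  refine squeeze_zero (fun _ => integral_nonneg (fun _ => norm_nonneg _)) (fun b => ?_) h1
  have h2 : ∀ᵐ x ∂(volume.restrict Ω), ‖⟪b.1 x, A b.2 x (b.1 x)⟫_ℝ - ⟪v0 x, A r0 x (v0 x)⟫_ℝ‖
      ≤ C * (‖(b.1 - v0 : L2V Ω) x‖ * ‖b.1 x‖) + C * (‖v0 x‖ * ‖(b.1 - v0 : L2V Ω) x‖)
        + C * |b.2 - r0| * (‖v0 x‖ * ‖v0 x‖) := by
    filter_upwards [Lp.coeFn_sub b.1 v0] with x hx
    rw [hx, Pi.sub_apply]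
    have e : ⟪b.1 x, A b.2 x (b.1 x)⟫_ℝ - ⟪v0 x, A r0 x (v0 x)⟫_ℝ
        = ⟪b.1 x - v0 x, A b.2 x (b.1 x)⟫_ℝ + ⟪v0 x, A b.2 x (b.1 x - v0 x)⟫_ℝ
          + ⟪v0 x, (A b.2 x - A r0 x) (v0 x)⟫_ℝ := by
      simp only [map_sub, sub_apply, inner_sub_left, inner_sub_right]
      ring
    rw [e]
    have n1 : ‖⟪b.1 x - v0 x, A b.2 x (b.1 x)⟫_ℝ‖ ≤ C * (‖b.1 x - v0 x‖ * ‖b.1 x‖) := by
      calc _ ≤ ‖b.1 x - v0 x‖ * ‖A b.2 x (b.1 x)‖ := norm_inner_le_norm _ _
        _ ≤ ‖b.1 x - v0 x‖ * (C * ‖b.1 x‖) := by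
            gcongr
            exact (A b.2 x).le_of_opNorm_le (hA1 _ x) _
        _ = _ := by ring
    have n2 : ‖⟪v0 x, A b.2 x (b.1 x - v0 x)⟫_ℝ‖ ≤ C * (‖v0 x‖ * ‖b.1 x - v0 x‖) := by
      calc _ ≤ ‖v0 x‖ * ‖A b.2 x (b.1 x - v0 x)‖ := norm_inner_le_norm _ _
        _ ≤ ‖v0 x‖ * (C * ‖b.1 x - v0 x‖) := by
            gcongr
            exact (A b.2 x).le_of_opNorm_le (hA1 _ x) _
        _ = _ := by ring
    have n3 : ‖⟪v0 x, (A b.2 x - A r0 x) (v0 x)⟫_ℝ‖ ≤ C * |b.2 - r0| * (‖v0 x‖ * ‖v0 x‖) := by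
      calc _ ≤ ‖v0 x‖ * ‖(A b.2 x - A r0 x) (v0 x)‖ := norm_inner_le_norm _ _
        _ ≤ ‖v0 x‖ * (C * |b.2 - r0| * ‖v0 x‖) := by
            gcongr
            exact (A b.2 x - A r0 x).le_of_opNorm_le (hA2 _ _ x) _
        _ = _ := by ring
    exact (norm_add₃_le).trans (by linarith)
  have i1 : Integrable (fun x => C * (‖(b.1 - v0 : L2V Ω) x‖ * ‖b.1 x‖)) (volume.restrict Ω) :=
    (cs_integrable _ _).const_mul C
  have i2 : Integrable (fun x => C * (‖v0 x‖ * ‖(b.1 - v0 : L2V Ω) x‖)) (volume.restrict Ω) :=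
    (cs_integrable _ _).const_mul C
  have i3 : Integrable (fun x => C * |b.2 - r0| * (‖v0 x‖ * ‖v0 x‖)) (volume.restrict Ω) :=
    (cs_integrable _ _).const_mul _
  calc ∫ x in Ω, ‖⟪b.1 x, A b.2 x (b.1 x)⟫_ℝ - ⟪v0 x, A r0 x (v0 x)⟫_ℝ‖
      ≤ ∫ x in Ω, (C * (‖(b.1 - v0 : L2V Ω) x‖ * ‖b.1 x‖)
        + C * (‖v0 x‖ * ‖(b.1 - v0 : L2V Ω) x‖) + C * |b.2 - r0| * (‖v0 x‖ * ‖v0 x‖)) :=
        integral_mono_ae ((hint b.1 b.2).sub (hint v0 r0)).norm ((i1.add i2).add i3) h2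
    _ = C * (∫ x in Ω, ‖(b.1 - v0 : L2V Ω) x‖ * ‖b.1 x‖)
        + C * (∫ x in Ω, ‖v0 x‖ * ‖(b.1 - v0 : L2V Ω) x‖)
        + C * |b.2 - r0| * ∫ x in Ω, ‖v0 x‖ * ‖v0 x‖ := by
        have e1 := integral_add (i1.add i2) i3
        have e2 := integral_add i1 i2
        simp only [Pi.add_apply] at e1 e2
        rw [e1, e2, integral_const_mul, integral_const_mul, integral_const_mul]
    _ ≤ _ := by
        have h3 := cs_int (b.1 - v0) b.1
        have h4 := cs_int v0 (b.1 - v0)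
        have h5 := cs_int v0 v0
        gcongr

theorem lin_aesm [CompleteSpace E] [IsFiniteMeasure (volume.restrict Ω)] {T : ℝ} (hT : 0 ≤ T)
    {ρ : ℝ → L2S Ω} (hρ : ContinuousOn ρ (Icc 0 T))
    (hb : ∀ t ∈ Icc 0 T, ∀ᵐ x ∂(volume.restrict Ω), 1 ≤ ρ t x ∧ ρ t x ≤ 2)
    {B : ℝ → E3 → (E →L[ℝ] ℝ)} {C : ℝ} (hC : 0 ≤ C) (hB0 : ∀ r, Continuous (B r))
    (hB1 : ∀ r x, ‖B r x‖ ≤ C) (hB2 : ∀ r s x, ‖B r x - B s x‖ ≤ C * |r - s|)
    {w : ℝ → Lp E 2 (volume.restrict Ω)}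
    (hw : AEStronglyMeasurable w (volume.restrict (Ioc 0 T))) :
    AEStronglyMeasurable (fun t => ∫ x in Ω, ρ t x * B t x (w t x))
      (volume.restrict (Ioc 0 T)) := by
  have h1 := lin_continuous (ρ := fun t => ρ (clp T t)) (clp_comp hT hρ)
    (fun t => hb _ (clp_mem hT t)) hC hB0 hB1 hB2
  have h2 : AEStronglyMeasurable (fun t : ℝ => t) (volume.restrict (Ioc 0 T)) :=
    continuous_id.aestronglyMeasurable
  have h3 := h1.comp_aestronglyMeasurable (h2.prodMk (hw.prodMk h2))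
  refine h3.congr ?_
  rw [EventuallyEq, ae_restrict_iff' measurableSet_Ioc]
  refine Eventually.of_forall (fun t ht => ?_)
  simp only [clp_of_mem (Ioc_subset_Icc_self ht)]

theorem quad_aesm {T : ℝ} (hT : 0 ≤ T)
    {ρ : ℝ → L2S Ω} (hρ : ContinuousOn ρ (Icc 0 T))
    (hb : ∀ t ∈ Icc 0 T, ∀ᵐ x ∂(volume.restrict Ω), 1 ≤ ρ t x ∧ ρ t x ≤ 2)
    {A : ℝ → E3 → (E3 →L[ℝ] E3)} {C : ℝ} (hC : 0 ≤ C) (hA0 : ∀ r, Continuous (A r))
    (hA1 : ∀ r x, ‖A r x‖ ≤ C) (hA2 : ∀ r s x, ‖A r x - A s x‖ ≤ C * |r - s|)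
    {w : ℝ → L2V Ω} (hw : AEStronglyMeasurable w (volume.restrict (Ioc 0 T))) :
    AEStronglyMeasurable (fun t => ∫ x in Ω, ρ t x * ⟪w t x, A t x (w t x)⟫_ℝ)
      (volume.restrict (Ioc 0 T)) := by
  have h1 := quad_continuous (ρ := fun t => ρ (clp T t)) (clp_comp hT hρ)
    (fun t => hb _ (clp_mem hT t)) hC hA0 hA1 hA2
  have h2 : AEStronglyMeasurable (fun t : ℝ => t) (volume.restrict (Ioc 0 T)) :=
    continuous_id.aestronglyMeasurable
  have h3 := h1.comp_aestronglyMeasurable (h2.prodMk (hw.prodMk h2))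
  refine h3.congr ?_
  rw [EventuallyEq, ae_restrict_iff' measurableSet_Ioc]
  refine Eventually.of_forall (fun t ht => ?_)
  simp only [clp_of_mem (Ioc_subset_Icc_self ht)]

theorem lin_aesm_one [CompleteSpace E] [IsFiniteMeasure (volume.restrict Ω)] {T : ℝ} (hT : 0 ≤ T)
    {B : ℝ → E3 → (E →L[ℝ] ℝ)} {C : ℝ} (hC : 0 ≤ C) (hB0 : ∀ r, Continuous (B r))
    (hB1 : ∀ r x, ‖B r x‖ ≤ C) (hB2 : ∀ r s x, ‖B r x - B s x‖ ≤ C * |r - s|)
    {w : ℝ → Lp E 2 (volume.restrict Ω)}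
    (hw : AEStronglyMeasurable w (volume.restrict (Ioc 0 T))) :
    AEStronglyMeasurable (fun t => ∫ x in Ω, B t x (w t x))
      (volume.restrict (Ioc 0 T)) := by
  have h0 : MemLp (fun _ : E3 => (1 : ℝ)) 2 (volume.restrict Ω) := memLp_const 1
  have h1 := lin_aesm (ρ := fun _ => h0.toLp _) hT continuousOn_const
    (fun t _ => by
      filter_upwards [h0.coeFn_toLp] with x hx
      rw [hx]
      norm_num) hC hB0 hB1 hB2 hw
  refine h1.congr (Eventually.of_forall (fun t => ?_))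
  apply integral_congr_ae
  filter_upwards [h0.coeFn_toLp] with x hx
  simp only [hx, one_mul]

end forms

end N979MH
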