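import Mathlib
import Pool.Agent.N979.MH.Stm

/-!
Project MH: bounds for smooth space-time functions with compact support.
-/

set_option linter.unusedSectionVars false

open MeasureTheory Set Filter Topology
open scoped InnerProductSpace ENNReal ContDiff NNReal

namespace N979MH

open H772R2.NS

section st

variable {F : Type*} [NormedAddCommGroup F] [NormedSpace ℝ F] {φ : ℝ → E3 → F}

theorem st_hasDerivAt (h : ContDiff ℝ ∞ (fun p : ℝ × E3 => φ p.1 p.2)) (t : ℝ) (x : E3) :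
    HasDerivAt (fun s => φ s x) (fderiv ℝ (fun p : ℝ × E3 => φ p.1 p.2) (t, x) (1, 0)) t := by
  have h1 : HasFDerivAt (fun p : ℝ × E3 => φ p.1 p.2)
      (fderiv ℝ (fun p : ℝ × E3 => φ p.1 p.2) (t, x)) (t, x) :=
    ((h.differentiable (by simp)) (t, x)).hasFDerivAt
  have h2 : HasDerivAt (fun s : ℝ => ((s, x) : ℝ × E3)) (1, 0) t :=
    (hasDerivAt_id t).prodMk (hasDerivAt_const t x)
  exact h1.comp_hasDerivAt t h2

theorem st_dt (h : ContDiff ℝ ∞ (fun p : ℝ × E3 => φ p.1 p.2)) (t : ℝ) (x : E3) :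
    dt φ t x = fderiv ℝ (fun p : ℝ × E3 => φ p.1 p.2) (t, x) (1, 0) :=
  (st_hasDerivAt h t x).deriv

theorem st_fderiv (h : ContDiff ℝ ∞ (fun p : ℝ × E3 => φ p.1 p.2)) (t : ℝ) (x : E3) :
    fderiv ℝ (φ t) x = (fderiv ℝ (fun p : ℝ × E3 => φ p.1 p.2) (t, x)).comp
      (ContinuousLinearMap.inr ℝ ℝ E3) := by
  have h1 : HasFDerivAt (fun p : ℝ × E3 => φ p.1 p.2)
      (fderiv ℝ (fun p : ℝ × E3 => φ p.1 p.2) (t, x)) (t, x) :=
    ((h.differentiable (by simp)) (t, x)).hasFDerivAt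
  exact (h1.comp x (hasFDerivAt_prodMk_right t x)).fderiv

theorem st_dt_smooth (h : ContDiff ℝ ∞ (fun p : ℝ × E3 => φ p.1 p.2)) :
    ContDiff ℝ ∞ (fun p : ℝ × E3 => dt φ p.1 p.2) := by
  have : (fun p : ℝ × E3 => dt φ p.1 p.2)
      = fun p => fderiv ℝ (fun p : ℝ × E3 => φ p.1 p.2) p (1, 0) := by
    funext p
    exact st_dt h p.1 p.2
  rw [this]
  exact (h.fderiv_right (m := ∞) (by simp)).clm_apply contDiff_const

theorem st_fderiv_smooth (h : ContDiff ℝ ∞ (fun p : ℝ × E3 => φ p.1 p.2)) :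
    ContDiff ℝ ∞ (fun p : ℝ × E3 => fderiv ℝ (φ p.1) p.2) := by
  have : (fun p : ℝ × E3 => fderiv ℝ (φ p.1) p.2)
      = fun p => (fderiv ℝ (fun p : ℝ × E3 => φ p.1 p.2) p).comp
        (ContinuousLinearMap.inr ℝ ℝ E3) := by
    funext p
    exact st_fderiv h p.1 p.2
  rw [this]
  exact (h.fderiv_right (m := ∞) (by simp)).clm_comp contDiff_const

theorem st_dt_compact (h : ContDiff ℝ ∞ (fun p : ℝ × E3 => φ p.1 p.2))
    (hc : HasCompactSupport (fun p : ℝ × E3 => φ p.1 p.2)) :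
    HasCompactSupport (fun p : ℝ × E3 => dt φ p.1 p.2) := by
  refine (hc.fderiv (𝕜 := ℝ)).mono (fun p hp => ?_)
  intro h0
  apply hp
  show dt φ p.1 p.2 = 0
  rw [st_dt h]
  have h1 : fderiv ℝ (fun p : ℝ × E3 => φ p.1 p.2) p = 0 := h0
  have h2 : ((p.1, p.2) : ℝ × E3) = p := rfl
  rw [h2, h1]
  rfl

theorem st_fderiv_compact (h : ContDiff ℝ ∞ (fun p : ℝ × E3 => φ p.1 p.2))
    (hc : HasCompactSupport (fun p : ℝ × E3 => φ p.1 p.2)) :
    HasCompactSupport (fun p : ℝ × E3 => fderiv ℝ (φ p.1) p.2) := by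
  refine (hc.fderiv (𝕜 := ℝ)).mono (fun p hp => ?_)
  intro h0
  apply hp
  show fderiv ℝ (φ p.1) p.2 = 0
  rw [st_fderiv h]
  have h1 : fderiv ℝ (fun p : ℝ × E3 => φ p.1 p.2) p = 0 := h0
  have h2 : ((p.1, p.2) : ℝ × E3) = p := rfl
  rw [h2, h1, ContinuousLinearMap.zero_comp]

theorem st_bound (h : ContDiff ℝ ∞ (fun p : ℝ × E3 => φ p.1 p.2))
    (hc : HasCompactSupport (fun p : ℝ × E3 => φ p.1 p.2)) :
    ∃ C : ℝ, 0 ≤ C ∧ ∀ t x, ‖φ t x‖ ≤ C := by
  obtain ⟨C, hC⟩ := hc.exists_bound_of_continuous h.continuous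
  exact ⟨C, (norm_nonneg _).trans (hC (0, 0)), fun t x => hC (t, x)⟩

theorem st_lip (h : ContDiff ℝ ∞ (fun p : ℝ × E3 => φ p.1 p.2))
    (hc : HasCompactSupport (fun p : ℝ × E3 => φ p.1 p.2)) :
    ∃ C : ℝ, 0 ≤ C ∧ ∀ s t x, ‖φ t x - φ s x‖ ≤ C * |t - s| := by
  obtain ⟨C, hC0, hC⟩ := st_bound (st_dt_smooth h) (st_dt_compact h hc)
  refine ⟨C, hC0, fun s t x => ?_⟩
  have h1 := Convex.norm_image_sub_le_of_norm_hasDerivWithin_le (f := fun s => φ s x)
    (f' := fun s => dt φ s x) (s := univ) (x := s) (y := t) (C := C)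
    (fun r _ => by
      have := st_hasDerivAt h r x
      rw [← st_dt h] at this
      exact this.hasDerivWithinAt) (fun r _ => hC r x) convex_univ (mem_univ _) (mem_univ _)
  exact h1

theorem st_taylor (h : ContDiff ℝ ∞ (fun p : ℝ × E3 => φ p.1 p.2))
    (hc : HasCompactSupport (fun p : ℝ × E3 => φ p.1 p.2)) :
    ∃ C : ℝ, 0 ≤ C ∧ ∀ s t x, ‖φ t x - φ s x - (t - s) • dt φ s x‖ ≤ C * |t - s| ^ 2 := by
  obtain ⟨C, hC0, hC⟩ := st_lip (st_dt_smooth h) (st_dt_compact h hc)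
  refine ⟨C, hC0, fun s t x => ?_⟩
  have h1 := Convex.norm_image_sub_le_of_norm_hasDerivWithin_le
    (f := fun r => φ r x - (r - s) • dt φ s x)
    (f' := fun r => dt φ r x - dt φ s x) (s := uIcc s t) (x := s) (y := t) (C := C * |t - s|)
    (fun r _ => by
      have h2 := st_hasDerivAt h r x
      rw [← st_dt h] at h2
      have h3 : HasDerivAt (fun r : ℝ => (r - s) • dt φ s x) ((1 : ℝ) • dt φ s x) r :=
        ((hasDerivAt_id r).sub_const s).smul_const _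
      rw [one_smul] at h3
      exact (h2.sub h3).hasDerivWithinAt) (fun r hr => by
        refine (hC s r x).trans ?_
        have : |r - s| ≤ |t - s| := by
          rcases mem_uIcc.mp hr with ⟨h1, h2⟩ | ⟨h1, h2⟩
          · rw [abs_of_nonneg (by linarith), abs_of_nonneg (by linarith)]; linarith
          · rw [abs_of_nonpos (by linarith), abs_of_nonpos (by linarith)]; linarith
        gcongr) (convex_uIcc s t) left_mem_uIcc right_mem_uIcc
  simp only [sub_self, zero_smul, sub_zero, Real.norm_eq_abs] at h1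
  calc ‖φ t x - φ s x - (t - s) • dt φ s x‖ = ‖φ t x - (t - s) • dt φ s x - φ s x‖ := by
        congr 1; abel
    _ ≤ C * |t - s| * |t - s| := h1
    _ = C * |t - s| ^ 2 := by ring

/-- smoothness of the slices -/
theorem st_slice (h : ContDiff ℝ ∞ (fun p : ℝ × E3 => φ p.1 p.2)) (t : ℝ) :
    ContDiff ℝ ∞ (φ t) := h.comp (contDiff_prodMk_right t)

theorem st_slice_compact (hc : HasCompactSupport (fun p : ℝ × E3 => φ p.1 p.2)) (t : ℝ) :
    HasCompactSupport (φ t) := by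
  have h1 : IsCompact (Prod.snd '' tsupport (fun p : ℝ × E3 => φ p.1 p.2)) :=
    hc.isCompact.image continuous_snd
  refine HasCompactSupport.of_support_subset_isCompact h1 (fun x hx => ?_)
  exact ⟨(t, x), subset_tsupport _ hx, rfl⟩

theorem st_slice_tsupport {S : Set ℝ} {Ω : Set E3}
    (hs : tsupport (fun p : ℝ × E3 => φ p.1 p.2) ⊆ S ×ˢ Ω) (t : ℝ) : tsupport (φ t) ⊆ Ω := by
  have h1 : tsupport (φ t) ⊆ (fun x => ((t, x) : ℝ × E3)) ⁻¹'
      tsupport (fun p : ℝ × E3 => φ p.1 p.2) := by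
    refine closure_minimal (fun x hx => subset_tsupport _ hx) ?_
    exact (isClosed_tsupport _).preimage (by fun_prop)
  intro x hx
  exact (hs (h1 hx)).2

theorem st_zero_of_not_mem {T t : ℝ} {Ω : Set E3}
    (hs : tsupport (fun p : ℝ × E3 => φ p.1 p.2) ⊆ Iio T ×ˢ Ω) (ht : T ≤ t) : φ t = 0 := by
  funext x
  have : ((t, x) : ℝ × E3) ∉ tsupport (fun p : ℝ × E3 => φ p.1 p.2) := by
    intro hc
    have := (hs hc).1
    exact absurd this (not_lt.mpr ht)
  exact image_eq_zero_of_notMem_tsupport (f := fun p : ℝ × E3 => φ p.1 p.2) this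

/-- all bounds together. -/
theorem st_all (h : ContDiff ℝ ∞ (fun p : ℝ × E3 => φ p.1 p.2))
    (hc : HasCompactSupport (fun p : ℝ × E3 => φ p.1 p.2)) :
    ∃ c : ℝ, 0 ≤ c ∧ (∀ t x, ‖φ t x‖ ≤ c ∧ ‖fderiv ℝ (φ t) x‖ ≤ c) ∧
      (∀ s t x, ‖(φ t - φ s) x‖ ≤ c * |t - s| ∧ ‖fderiv ℝ (φ t - φ s) x‖ ≤ c * |t - s|) ∧
      (∀ s t x, ‖(φ t - φ s - (t - s) • dt φ s) x‖ ≤ c * |t - s| ^ 2) ∧
      (∀ s t x, ‖(dt φ t - dt φ s) x‖ ≤ c * |t - s|) := by
  obtain ⟨c1, p1, h1⟩ := st_bound h hc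
  obtain ⟨c2, p2, h2⟩ := st_bound (φ := fun t x => fderiv ℝ (φ t) x) (st_fderiv_smooth h)
    (st_fderiv_compact h hc)
  obtain ⟨c3, p3, h3⟩ := st_lip h hc
  obtain ⟨c4, p4, h4⟩ := st_lip (φ := fun t x => fderiv ℝ (φ t) x) (st_fderiv_smooth h)
    (st_fderiv_compact h hc)
  obtain ⟨c5, p5, h5⟩ := st_taylor h hc
  obtain ⟨c6, p6, h6⟩ := st_lip (φ := dt φ) (st_dt_smooth h) (st_dt_compact h hc)
  have hd : ∀ t x, DifferentiableAt ℝ (φ t) x := fun t x =>
    ((st_slice h t).differentiable (by simp)) x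
  have hfd : ∀ s t x, fderiv ℝ (φ t - φ s) x = fderiv ℝ (φ t) x - fderiv ℝ (φ s) x :=
    fun s t x => fderiv_sub (hd t x) (hd s x)
  refine ⟨c1 + c2 + c3 + c4 + c5 + c6, by positivity, fun t x => ⟨?_, ?_⟩,
    fun s t x => ⟨?_, ?_⟩, fun s t x => ?_, fun s t x => ?_⟩
  · linarith [h1 t x]
  · linarith [h2 t x]
  · refine (h3 s t x).trans ?_
    have := abs_nonneg (t - s)
    gcongr
    linarith
  · rw [hfd]
    refine (h4 s t x).trans ?_
    have := abs_nonneg (t - s)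
    gcongr
    linarith
  · refine (h5 s t x).trans ?_
    gcongr
    linarith
  · refine (h6 s t x).trans ?_
    have := abs_nonneg (t - s)
    gcongr
    linarith

end st

end N979MH
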