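import Mathlib

/-!
Project MH: from evolution equations integrated in time, tested with fixed test functions, to
space-time test functions (abstract part).
-/

open MeasureTheory Set Filter Topology

namespace N979MH

theorem tele {T C : ℝ} (hT : 0 < T) {h g n : ℝ → ℝ} (hg : IntegrableOn g (Ioc 0 T))
    (hn : IntegrableOn n (Ioc 0 T))
    (H : ∀ s t, 0 ≤ s → s ≤ t → t ≤ T →
      |h t - h s - ∫ τ in s..t, g τ| ≤ C * (t - s) * ((t - s) + ∫ τ in s..t, n τ)) :
    h T - h 0 = ∫ τ in (0 : ℝ)..T, g τ := by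
  have key : ∀ N : ℕ, |h T - h 0 - ∫ τ in (0 : ℝ)..T, g τ|
      ≤ C * (T + ∫ τ in (0 : ℝ)..T, n τ) * (T / ((N : ℝ) + 1)) := by
    intro N
    have hN : (0 : ℝ) < (N : ℝ) + 1 := by positivity
    let a : ℕ → ℝ := fun k => k * (T / ((N : ℝ) + 1))
    have ha0 : a 0 = 0 := by simp [a]
    have haN : a (N + 1) = T := by
      simp only [a]
      push_cast
      field_simp
    have hamono : Monotone a := by
      intro i j hij
      simp only [a]
      have : (i : ℝ) ≤ j := by exact_mod_cast hij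
      gcongr
    have hadiff : ∀ k, a (k + 1) - a k = T / ((N : ℝ) + 1) := by
      intro k
      simp only [a]
      push_cast
      ring
    have hmem : ∀ k, k ≤ N + 1 → 0 ≤ a k ∧ a k ≤ T := by
      intro k hk
      exact ⟨ha0 ▸ hamono (Nat.zero_le k), haN ▸ hamono hk⟩
    have hint : ∀ f : ℝ → ℝ, IntegrableOn f (Ioc 0 T) → ∀ k < N + 1,
        IntervalIntegrable f volume (a k) (a (k + 1)) := by
      intro f hf k hk
      rw [intervalIntegrable_iff_integrableOn_Ioc_of_le (hamono (Nat.le_succ k))]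
      exact hf.mono_set (Ioc_subset_Ioc (hmem k hk.le).1 (hmem (k + 1) hk).2)
    have s1 : h T - h 0 = ∑ k ∈ Finset.range (N + 1), (h (a (k + 1)) - h (a k)) := by
      rw [Finset.sum_range_sub (fun k => h (a k)), ha0, haN]
    have s2 : ∀ f : ℝ → ℝ, IntegrableOn f (Ioc 0 T) →
        ∑ k ∈ Finset.range (N + 1), (∫ τ in (a k)..(a (k + 1)), f τ) = ∫ τ in (0 : ℝ)..T, f τ := by
      intro f hf
      rw [intervalIntegral.sum_integral_adjacent_intervals (hint f hf), ha0, haN]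
    calc |h T - h 0 - ∫ τ in (0 : ℝ)..T, g τ|
        = |∑ k ∈ Finset.range (N + 1),
            (h (a (k + 1)) - h (a k) - ∫ τ in (a k)..(a (k + 1)), g τ)| := by
          rw [Finset.sum_sub_distrib, s2 g hg, ← s1]
      _ ≤ ∑ k ∈ Finset.range (N + 1),
            |h (a (k + 1)) - h (a k) - ∫ τ in (a k)..(a (k + 1)), g τ| :=
          Finset.abs_sum_le_sum_abs _ _
      _ ≤ ∑ k ∈ Finset.range (N + 1),
            C * (T / ((N : ℝ) + 1)) * (T / ((N : ℝ) + 1) + ∫ τ in (a k)..(a (k + 1)), n τ) := by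
          refine Finset.sum_le_sum (fun k hk => ?_)
          have hk' := Finset.mem_range.mp hk
          have := H (a k) (a (k + 1)) (hmem k hk'.le).1 (hamono (Nat.le_succ k)) (hmem (k + 1) hk').2
          rwa [hadiff] at this
      _ = C * (T + ∫ τ in (0 : ℝ)..T, n τ) * (T / ((N : ℝ) + 1)) := by
          rw [← Finset.mul_sum, Finset.sum_add_distrib, s2 n hn]
          simp only [Finset.sum_const, Finset.card_range, nsmul_eq_mul]
          push_cast
          field_simp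
  have hlim : Tendsto (fun N : ℕ => C * (T + ∫ τ in (0 : ℝ)..T, n τ) * (T / ((N : ℝ) + 1)))
      atTop (𝓝 (C * (T + ∫ τ in (0 : ℝ)..T, n τ) * 0)) := by
    apply Tendsto.const_mul
    have h1 := (tendsto_one_div_add_atTop_nhds_zero_nat (𝕜 := ℝ)).const_mul T
    rw [mul_zero] at h1
    refine h1.congr (fun N => ?_)
    rw [mul_one_div]
  rw [mul_zero] at hlim
  have h0 : |h T - h 0 - ∫ τ in (0 : ℝ)..T, g τ| ≤ 0 := ge_of_tendsto' hlim key
  have := abs_nonpos_iff.mp h0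
  linarith

theorem time_test {V : Type*} [AddCommGroup V] [Module ℝ V] (P Q : Submodule ℝ V) (hPQ : P ≤ Q)
    (B0 B1 : V → ℝ → Prop) {T C : ℝ} (hT : 0 < T) (hC : 0 ≤ C) {m N : ℝ → V → ℝ} {n : ℝ → ℝ}
    (hn : IntegrableOn n (Ioc 0 T)) (hn0 : ∀ t, 0 ≤ n t)
    (msub : ∀ t ∈ Icc 0 T, ∀ q ∈ Q, ∀ q' ∈ Q, m t (q - q') = m t q - m t q')
    (msmul : ∀ t ∈ Icc 0 T, ∀ (c : ℝ), ∀ q ∈ Q, m t (c • q) = c * m t q)
    (mbd : ∀ t ∈ Icc 0 T, ∀ q ∈ Q, ∀ c, 0 ≤ c → B0 q c → |m t q| ≤ C * c)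
    (Nsub : ∀ t ∈ Ioc 0 T, ∀ q ∈ P, ∀ q' ∈ P, N t (q - q') = N t q - N t q')
    (Nbd : ∀ t ∈ Ioc 0 T, ∀ q ∈ P, ∀ c, 0 ≤ c → B1 q c → |N t q| ≤ n t * c)
    (Nm : ∀ q ∈ P, AEStronglyMeasurable (fun t => N t q) (volume.restrict (Ioc 0 T)))
    (tr : ∀ q ∈ P, ∀ s t, 0 ≤ s → s ≤ t → t ≤ T → m t q - m s q = ∫ τ in s..t, N τ q)
    {ψ ψ' : ℝ → V} (hψ : ∀ t, ψ t ∈ P) (hψ' : ∀ t, ψ' t ∈ Q) {c : ℝ} (hc : 0 ≤ c)
    (b1 : ∀ t, B1 (ψ t) c)
    (b2 : ∀ s t, B1 (ψ t - ψ s) (c * |t - s|))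
    (b3 : ∀ s t, B0 (ψ t - ψ s - (t - s) • ψ' s) (c * |t - s| ^ 2))
    (b4 : ∀ s t, B0 (ψ' t - ψ' s) (c * |t - s|))
    (Nm2 : AEStronglyMeasurable (fun t => N t (ψ t)) (volume.restrict (Ioc 0 T))) :
    IntegrableOn (fun t => m t (ψ' t)) (Ioc 0 T) ∧ IntegrableOn (fun t => N t (ψ t)) (Ioc 0 T) ∧
    m T (ψ T) - m 0 (ψ 0) = ∫ τ in (0 : ℝ)..T, (m τ (ψ' τ) + N τ (ψ τ)) := by
  -- integrability
  have hnint : ∀ s t, 0 ≤ s → s ≤ t → t ≤ T → IntervalIntegrable n volume s t := by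
    intro s t h1 h2 h3
    rw [intervalIntegrable_iff_integrableOn_Ioc_of_le h2]
    exact hn.mono_set (Ioc_subset_Ioc h1 h3)
  have hNint : ∀ q : ℝ → V, (∀ t, q t ∈ P) → ∀ c', 0 ≤ c' → (∀ t, B1 (q t) c') →
      AEStronglyMeasurable (fun t => N t (q t)) (volume.restrict (Ioc 0 T)) →
      IntegrableOn (fun t => N t (q t)) (Ioc 0 T) := by
    intro q hq c' hc' hb hm
    refine Integrable.mono' (hn.mul_const c') hm ?_
    rw [ae_restrict_iff' measurableSet_Ioc]
    exact Eventually.of_forall (fun t ht => Nbd t ht (q t) (hq t) c' hc' (hb t))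
  have hNint' : ∀ q : ℝ → V, (∀ t, q t ∈ P) → ∀ c', 0 ≤ c' → (∀ t, B1 (q t) c') →
      AEStronglyMeasurable (fun t => N t (q t)) (volume.restrict (Ioc 0 T)) →
      ∀ s t, 0 ≤ s → s ≤ t → t ≤ T → IntervalIntegrable (fun t => N t (q t)) volume s t := by
    intro q hq c' hc' hb hm s t h1 h2 h3
    rw [intervalIntegrable_iff_integrableOn_Ioc_of_le h2]
    exact (hNint q hq c' hc' hb hm).mono_set (Ioc_subset_Ioc h1 h3)
  have iN : IntegrableOn (fun t => N t (ψ t)) (Ioc 0 T) := hNint ψ hψ c hc b1 Nm2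
  have iN' := hNint' ψ hψ c hc b1 Nm2
  have hn_nonneg : ∀ s t, s ≤ t → 0 ≤ ∫ τ in s..t, n τ := fun s t hst =>
    intervalIntegral.integral_nonneg hst (fun τ _ => hn0 τ)
  -- step A
  have hP2 : ∀ s t, ψ t - ψ s ∈ P := fun s t => P.sub_mem (hψ t) (hψ s)
  have bdint : ∀ q ∈ P, ∀ c', 0 ≤ c' → B1 q c' → ∀ τ t, 0 ≤ τ → τ ≤ t → t ≤ T →
      |m t q - m τ q| ≤ (∫ σ in τ..t, n σ) * c' := by
    intro q hq c' hc' hb τ t h1 h2 h3
    rw [tr q hq τ t h1 h2 h3]
    have hi := hnint τ t h1 h2 h3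
    calc |∫ σ in τ..t, N σ q| ≤ ∫ σ in τ..t, n σ * c' := by
          rw [← Real.norm_eq_abs]
          refine intervalIntegral.norm_integral_le_of_norm_le h2 ?_ (hi.mul_const c')
          refine Eventually.of_forall (fun σ hσ => ?_)
          exact Nbd σ ⟨h1.trans_lt hσ.1, hσ.2.trans h3⟩ q hq c' hc' hb
      _ = (∫ σ in τ..t, n σ) * c' := intervalIntegral.integral_mul_const _ _
  have stepA : ∀ s τ t, 0 ≤ τ → τ ≤ t → t ≤ T →
      |m t (ψ' s) - m τ (ψ' s)| ≤ c * ∫ σ in τ..t, n σ := by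
    intro s τ t h1 h2 h3
    have ht : t ∈ Icc 0 T := ⟨h1.trans h2, h3⟩
    have hτ : τ ∈ Icc 0 T := ⟨h1, h2.trans h3⟩
    have hh : ∀ h : ℝ, 0 < h →
        |m t (ψ' s) - m τ (ψ' s)| ≤ c * (∫ σ in τ..t, n σ) + 2 * C * c * h := by
      intro h hh
      have e1 : ∀ t ∈ Icc 0 T, h * m t (ψ' s) = m t (ψ (s + h) - ψ s)
          - m t (ψ (s + h) - ψ s - ((s + h) - s) • ψ' s) := by
        intro t ht
        rw [msub t ht _ (hPQ (hP2 s (s + h))) _ (Q.smul_mem _ (hψ' s)), msmul t ht _ _ (hψ' s)]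
        ring
      have a1 := bdint _ (hP2 s (s + h)) (c * |s + h - s|) (by positivity) (b2 s (s + h)) τ t h1 h2 h3
      have hQ : ψ (s + h) - ψ s - ((s + h) - s) • ψ' s ∈ Q :=
        Q.sub_mem (hPQ (hP2 s (s + h))) (Q.smul_mem _ (hψ' s))
      have a2 := mbd t ht _ hQ _ (by positivity) (b3 s (s + h))
      have a3 := mbd τ hτ _ hQ _ (by positivity) (b3 s (s + h))
      have e2 := e1 t ht
      have e3 := e1 τ hτ
      have e4 : |s + h - s| = h := by rw [add_sub_cancel_left, abs_of_pos hh]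
      rw [e4] at a1 a2 a3
      have a4 : h * |m t (ψ' s) - m τ (ψ' s)| ≤ h * (c * (∫ σ in τ..t, n σ) + 2 * C * c * h) := by
        calc h * |m t (ψ' s) - m τ (ψ' s)| = |h * m t (ψ' s) - h * m τ (ψ' s)| := by
              rw [← mul_sub, abs_mul, abs_of_pos hh]
          _ = |(m t (ψ (s + h) - ψ s) - m τ (ψ (s + h) - ψ s))
                - m t (ψ (s + h) - ψ s - ((s + h) - s) • ψ' s)
                + m τ (ψ (s + h) - ψ s - ((s + h) - s) • ψ' s)| := by
              rw [e2, e3]; ring_nf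
          _ ≤ |m t (ψ (s + h) - ψ s) - m τ (ψ (s + h) - ψ s)|
                + |m t (ψ (s + h) - ψ s - ((s + h) - s) • ψ' s)|
                + |m τ (ψ (s + h) - ψ s - ((s + h) - s) • ψ' s)| := by
              refine (abs_add_le _ _).trans ?_
              gcongr
              exact abs_sub _ _
          _ ≤ (∫ σ in τ..t, n σ) * (c * h) + C * (c * h ^ 2) + C * (c * h ^ 2) := by
              linarith
          _ = h * (c * (∫ σ in τ..t, n σ) + 2 * C * c * h) := by ring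
      exact le_of_mul_le_mul_left a4 hh
    have hlim : Tendsto (fun h : ℝ => c * (∫ σ in τ..t, n σ) + 2 * C * c * h) (𝓝[>] 0)
        (𝓝 (c * (∫ σ in τ..t, n σ) + 2 * C * c * 0)) := by
      apply Tendsto.mono_left _ nhdsWithin_le_nhds
      exact (continuous_const.add (continuous_const.mul continuous_id)).tendsto 0
    rw [mul_zero, add_zero] at hlim
    exact ge_of_tendsto hlim (eventually_mem_nhdsWithin.mono (fun h hh' => hh h hh'))
  -- increments of m τ (ψ' τ)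
  have incr : ∀ s τ t, 0 ≤ τ → τ ≤ t → t ≤ T →
      |m t (ψ' s) - m τ (ψ' τ)| ≤ c * (∫ σ in τ..t, n σ) + C * (c * |s - τ|) := by
    intro s τ t h1 h2 h3
    have hτ : τ ∈ Icc 0 T := ⟨h1, h2.trans h3⟩
    have a1 := stepA s τ t h1 h2 h3
    have a2 := mbd τ hτ _ (Q.sub_mem (hψ' s) (hψ' τ)) _ (by positivity) (b4 τ s)
    rw [msub τ hτ _ (hψ' s) _ (hψ' τ)] at a2
    calc |m t (ψ' s) - m τ (ψ' τ)|
        = |(m t (ψ' s) - m τ (ψ' s)) + (m τ (ψ' s) - m τ (ψ' τ))| := by ring_nf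
      _ ≤ |m t (ψ' s) - m τ (ψ' s)| + |m τ (ψ' s) - m τ (ψ' τ)| := abs_add_le _ _
      _ ≤ _ := add_le_add a1 a2
  -- continuity of m τ (ψ' τ)
  have hcont : ContinuousOn (fun τ => m τ (ψ' τ)) (Icc 0 T) := by
    have hprim : ContinuousOn (fun x => ∫ σ in (0 : ℝ)..x, n σ) (Icc 0 T) := by
      have := intervalIntegral.continuousOn_primitive_interval (a := 0) (b := T) (f := n)
        (μ := volume) (by
          rw [uIcc_of_le hT.le]
          exact (integrableOn_Icc_iff_integrableOn_Ioc).mpr hn)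
      rwa [uIcc_of_le hT.le] at this
    have bound : ∀ x ∈ Icc 0 T, ∀ y ∈ Icc 0 T, |m y (ψ' y) - m x (ψ' x)|
        ≤ c * |(∫ σ in (0 : ℝ)..y, n σ) - ∫ σ in (0 : ℝ)..x, n σ| + C * (c * |y - x|) := by
      have main : ∀ x ∈ Icc 0 T, ∀ y ∈ Icc 0 T, x ≤ y → |m y (ψ' y) - m x (ψ' x)|
          ≤ c * |(∫ σ in (0 : ℝ)..y, n σ) - ∫ σ in (0 : ℝ)..x, n σ| + C * (c * |y - x|) := by
        intro x hx y hy hxy
        have := incr y x y hx.1 hxy hy.2
        have e : (∫ σ in (0 : ℝ)..y, n σ) - ∫ σ in (0 : ℝ)..x, n σ = ∫ σ in x..y, n σ := by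
          have := intervalIntegral.integral_add_adjacent_intervals
            (hnint 0 x le_rfl hx.1 hx.2) (hnint x y hx.1 hxy hy.2)
          linarith
        rw [e]
        refine this.trans ?_
        gcongr
        exact le_abs_self _
      intro x hx y hy
      rcases le_total x y with hxy | hxy
      · exact main x hx y hy hxy
      · have := main y hy x hx hxy
        rw [abs_sub_comm, abs_sub_comm (∫ σ in (0 : ℝ)..y, n σ), abs_sub_comm y x]
        exact this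
    intro x hx
    have h1 : Tendsto (fun y => c * |(∫ σ in (0 : ℝ)..y, n σ) - ∫ σ in (0 : ℝ)..x, n σ|
        + C * (c * |y - x|)) (𝓝[Icc 0 T] x) (𝓝 0) := by
      have h2 : ContinuousWithinAt (fun y => c * |(∫ σ in (0 : ℝ)..y, n σ)
          - ∫ σ in (0 : ℝ)..x, n σ| + C * (c * |y - x|)) (Icc 0 T) x := by
        have h3 := hprim x hx
        have h4 : ContinuousWithinAt (fun y : ℝ => y) (Icc 0 T) x := continuousWithinAt_id
        exact (continuousWithinAt_const.mul (h3.sub continuousWithinAt_const).abs).add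
          (continuousWithinAt_const.mul (continuousWithinAt_const.mul
            (h4.sub continuousWithinAt_const).abs))
      have h5 := h2.tendsto
      simpa using h5
    rw [ContinuousWithinAt, tendsto_iff_norm_sub_tendsto_zero]
    refine squeeze_zero' (Eventually.of_forall fun y => norm_nonneg _) ?_ h1
    filter_upwards [self_mem_nhdsWithin] with y hy
    exact bound x hx y hy
  have iM : IntegrableOn (fun t => m t (ψ' t)) (Ioc 0 T) :=
    (hcont.integrableOn_Icc).mono_set Ioc_subset_Icc_self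
  refine ⟨iM, iN, ?_⟩
  refine tele (C := 2 * c * (C + 1)) (h := fun t => m t (ψ t)) (n := n) hT (iM.add iN) hn ?_
  intro s t hs hst htT
  have hsI : s ∈ Icc 0 T := ⟨hs, hst.trans htT⟩
  have htI : t ∈ Icc 0 T := ⟨hs.trans hst, htT⟩
  have hQ : ψ t - ψ s - (t - s) • ψ' s ∈ Q :=
    Q.sub_mem (hPQ (hP2 s t)) (Q.smul_mem _ (hψ' s))
  have iMst : IntervalIntegrable (fun t => m t (ψ' t)) volume s t := by
    rw [intervalIntegrable_iff_integrableOn_Ioc_of_le hst]
    exact iM.mono_set (Ioc_subset_Ioc hs htT)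
  have iNst := iN' s t hs hst htT
  have iNs := hNint' (fun _ => ψ s) (fun _ => hψ s) c hc (fun _ => b1 s) (Nm _ (hψ s)) s t hs hst htT
  have e1 : m t (ψ t) - m s (ψ s) = m t (ψ t - ψ s - (t - s) • ψ' s) + (t - s) * m t (ψ' s)
      + ∫ τ in s..t, N τ (ψ s) := by
    rw [← tr _ (hψ s) s t hs hst htT, msub t htI _ (hPQ (hP2 s t)) _ (Q.smul_mem _ (hψ' s)),
      msmul t htI _ _ (hψ' s), msub t htI _ (hPQ (hψ t)) _ (hPQ (hψ s))]
    ring
  have e2 : (t - s) * m t (ψ' s) = ∫ τ in s..t, m t (ψ' s) := by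
    rw [intervalIntegral.integral_const, smul_eq_mul]
  have e3 : m t (ψ t) - m s (ψ s) - ∫ τ in s..t, (m τ (ψ' τ) + N τ (ψ τ))
      = m t (ψ t - ψ s - (t - s) • ψ' s) + (∫ τ in s..t, (m t (ψ' s) - m τ (ψ' τ)))
        + ∫ τ in s..t, (N τ (ψ s) - N τ (ψ τ)) := by
    rw [intervalIntegral.integral_add iMst iNst, e1, e2,
      intervalIntegral.integral_sub intervalIntegrable_const iMst,
      intervalIntegral.integral_sub iNs iNst]
    ring
  have hts : |t - s| = t - s := abs_of_nonneg (by linarith)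
  have a1 : |m t (ψ t - ψ s - (t - s) • ψ' s)| ≤ C * (c * (t - s) ^ 2) := by
    have := mbd t htI _ hQ _ (by positivity) (b3 s t)
    rwa [hts] at this
  have a2 : |∫ τ in s..t, (m t (ψ' s) - m τ (ψ' τ))|
      ≤ (c * (∫ σ in s..t, n σ) + C * (c * (t - s))) * (t - s) := by
    have := intervalIntegral.norm_integral_le_of_norm_le_const (a := s) (b := t)
      (f := fun τ => m t (ψ' s) - m τ (ψ' τ))
      (C := c * (∫ σ in s..t, n σ) + C * (c * (t - s))) (by
        intro τ hτ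
        rw [uIoc_of_le hst] at hτ
        have h1 := incr s τ t (hs.trans hτ.1.le) hτ.2 htT
        refine h1.trans ?_
        have h2 : ∫ σ in τ..t, n σ ≤ ∫ σ in s..t, n σ := by
          have h3 := intervalIntegral.integral_add_adjacent_intervals
            (hnint s τ hs hτ.1.le (hτ.2.trans htT)) (hnint τ t (hs.trans hτ.1.le) hτ.2 htT)
          have h4 := hn_nonneg s τ hτ.1.le
          linarith
        have h5 : |s - τ| ≤ t - s := by
          rw [abs_sub_comm, abs_of_nonneg (by linarith [hτ.1])]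
          linarith [hτ.2]
        gcongr)
    rwa [hts] at this
  have a3 : |∫ τ in s..t, (N τ (ψ s) - N τ (ψ τ))| ≤ (∫ σ in s..t, n σ) * (c * (t - s)) := by
    calc |∫ τ in s..t, (N τ (ψ s) - N τ (ψ τ))| ≤ ∫ τ in s..t, n τ * (c * (t - s)) := by
          rw [← Real.norm_eq_abs]
          refine intervalIntegral.norm_integral_le_of_norm_le hst ?_
            ((hnint s t hs hst htT).mul_const _)
          refine Eventually.of_forall (fun τ hτ => ?_)
          have hτI : τ ∈ Ioc 0 T := ⟨hs.trans_lt hτ.1, hτ.2.trans htT⟩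
          rw [← Nsub τ hτI _ (hψ s) _ (hψ τ)]
          have h1 := Nbd τ hτI _ (hP2 τ s) _ (by positivity) (b2 τ s)
          refine h1.trans ?_
          have h5 : |s - τ| ≤ t - s := by
            rw [abs_sub_comm, abs_of_nonneg (by linarith [hτ.1])]
            linarith [hτ.2]
          have := hn0 τ
          gcongr
      _ = (∫ σ in s..t, n σ) * (c * (t - s)) := intervalIntegral.integral_mul_const _ _
  show |m t (ψ t) - m s (ψ s) - ∫ τ in s..t, (m τ (ψ' τ) + N τ (ψ τ))| ≤ _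
  rw [e3]
  have h0 := hn_nonneg s t hst
  have hts0 : 0 ≤ t - s := by linarith
  calc _ ≤ |m t (ψ t - ψ s - (t - s) • ψ' s)| + |∫ τ in s..t, (m t (ψ' s) - m τ (ψ' τ))|
        + |∫ τ in s..t, (N τ (ψ s) - N τ (ψ τ))| := abs_add_three _ _ _
    _ ≤ C * (c * (t - s) ^ 2) + (c * (∫ σ in s..t, n σ) + C * (c * (t - s))) * (t - s)
        + (∫ σ in s..t, n σ) * (c * (t - s)) := by linarith
    _ ≤ 2 * c * (C + 1) * (t - s) * ((t - s) + ∫ τ in s..t, n τ) := by
        have h1 : 0 ≤ c * C * (t - s) * ∫ τ in s..t, n τ := by positivity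
        have h2 : 0 ≤ c * (t - s) * (t - s) := by positivity
        nlinarith [h1, h2]

end N979MH
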